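import Pool.Agent.H167R2.KNLin

/-!
# The `ℓ∞` covering radius of lattices generated by unit vectors

The covering radius is at most `C (1 + log (1 + min (m, n))) ^ (1/4)`, and it is bounded by an
absolute constant if the entries of the generators are at most about `(log m) ^ (-1/2)`.  There is
also a bound with iterated logarithms for generators with bounded overlap.
-/

set_option autoImplicit false

namespace Pool.Agent.Results.MP_183cce_co.QuarterPowerLog

open Finset

/-- The `k`-th iterate of `x ↦ log (1 + x)`. -/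
noncomputable def ilog (k : ℕ) (x : ℝ) : ℝ := (fun t : ℝ => Real.log (1 + t))^[k] x

/-- The smaller of `x ^ (1/4)` and `1 + δ √x (1 + log (1/δ)) ^ (3/2)`. -/
noncomputable def E (δ x : ℝ) : ℝ :=
  min (x ^ (1 / 4 : ℝ)) (1 + δ * Real.sqrt x * (1 + Real.log (1 / δ)) ^ (3 / 2 : ℝ))

/-- **Main result.** For `r = 0` the number `Δ` plays no role. -/
theorem result (m n : ℕ) (v : Fin n → EuclideanSpace ℝ (Fin m)) (hv : ∀ j, ‖v j‖ = 1)
    (δ : ℝ) (hδ0 : 0 < δ) (hδ1 : δ ≤ 1) (hδ : ∀ j i, |v j i| ≤ δ)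
    (Δ : ℕ) (hΔ : ∀ j, (univ.filter fun k => ∃ i, v j i ≠ 0 ∧ v k i ≠ 0).card ≤ Δ)
    (hΔ1 : 1 ≤ Δ) (r : ℕ)
    (x : EuclideanSpace ℝ (Fin m)) (hx : x ∈ Submodule.span ℝ (Set.range v)) :
    ∃ y ∈ AddSubgroup.closure (Set.range v), ∀ i, |x i - y i| ≤ 35000000 *
      (r * E δ ((1 + Real.log Δ) * (1 + Real.log (1 / δ) + Real.log (1 + Real.log Δ))) +
        E δ (1 + Real.log (1 / δ) + ilog (r + 1) (min m n : ℕ))) := by
  classical
  obtain ⟨c, hc⟩ := (Submodule.mem_span_range_iff_exists_fun ℝ).1 hx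
  have hcol : ∀ j, ∑ i, (v j i) ^ 2 ≤ 1 := by
    intro j
    have h1 := EuclideanSpace.norm_sq_eq (v j)
    rw [hv j, one_pow] at h1
    rw [h1]
    exact le_of_eq (sum_congr rfl fun i _ => by rw [Real.norm_eq_abs, sq_abs])
  have hnb : ∀ j, (H167BK.nb (fun (i : Fin m) (j : Fin n) => v j i) j).card ≤ Δ := by
    intro j
    refine (card_le_card ?_).trans (hΔ j)
    intro w hw
    unfold H167BK.nb at hw
    rw [mem_filter] at hw ⊢
    refine ⟨mem_univ _, ?_⟩
    rcases hw.2 with h | ⟨i, h3, h4⟩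
    · subst h
      by_contra hcon
      push Not at hcon
      have h0 : v w = 0 := by
        ext i
        by_contra hi
        exact hi (hcon i hi)
      have h1 := hv w
      rw [h0, norm_zero] at h1
      exact zero_ne_one h1
    · exact ⟨i, h3, h4⟩
  obtain ⟨y, hy1, hy2⟩ := H167KN.komlos_form2 (fun (i : Fin m) (j : Fin n) => v j i) δ hδ0 hδ1
    (fun i j => hδ j i) hcol Δ hΔ1 hnb r (fun j => 2 * Int.fract (c j) - 1) (by
      intro j
      rw [abs_le]
      have h1 := Int.fract_nonneg (c j)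
      have h2 := (Int.fract_lt_one (c j)).le
      constructor <;> linarith)
  let a : Fin n → ℤ := fun j => ⌊c j⌋ + if y j = 1 then 1 else 0
  have ha : ∀ j, ((a j : ℤ) : ℝ) - c j = (y j - (2 * Int.fract (c j) - 1)) / 2 := by
    intro j
    have h1 := Int.floor_add_fract (c j)
    rcases eq_or_eq_neg_of_abs_eq (hy1 j) with h | h
    · simp only [a, h, if_true]
      push_cast
      linarith
    · have h' : y j ≠ 1 := by rw [h]; norm_num
      simp only [a, h', if_false]
      push_cast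
      rw [h]
      linarith
  refine ⟨∑ j, a j • v j, AddSubgroup.sum_mem _ fun j _ =>
    AddSubgroup.zsmul_mem _ (AddSubgroup.subset_closure (Set.mem_range_self j)) _, fun i => ?_⟩
  have hxi : x i = ∑ j, c j * v j i := by
    rw [← hc]
    simp
  have hyi : (∑ j, a j • v j : EuclideanSpace ℝ (Fin m)) i = ∑ j, ((a j : ℤ) : ℝ) * v j i := by
    simp
  have e : x i - (∑ j, a j • v j : EuclideanSpace ℝ (Fin m)) i =
      -(1 / 2) * ∑ j, v j i * (y j - (2 * Int.fract (c j) - 1)) := by
    rw [hxi, hyi, ← sum_sub_distrib, mul_sum]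
    refine sum_congr rfl fun j _ => ?_
    have := ha j
    linear_combination (-(v j i)) * this
  rw [e, abs_mul, abs_neg, abs_of_pos (by norm_num : (0 : ℝ) < 1 / 2)]
  have h := hy2 i
  have hcard : ((min (Fintype.card (Fin m)) (Fintype.card (Fin n)) : ℕ) : ℝ) =
      ((min m n : ℕ) : ℝ) := by simp
  rw [hcard] at h
  have h2 : |∑ j, v j i * (y j - (2 * Int.fract (c j) - 1))| ≤ 70000000 *
      (r * E δ ((1 + Real.log Δ) * (1 + Real.log (1 / δ) + Real.log (1 + Real.log Δ))) +
        E δ (1 + Real.log (1 / δ) + ilog (r + 1) (min m n : ℕ))) := h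
  linarith

end Pool.Agent.Results.MP_183cce_co.QuarterPowerLog
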